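import Pool.Agent.K1H35.SH.Stm

/-!
Pieces ONE and BAD of the project SH: large codegrees are exponentially unlikely.
-/

set_option autoImplicit false

namespace Pool.Agent.K1H35.SH

open Finset

namespace OB

lemma mem_nb {n : ℕ} {G : SimpleGraph (Fin n)} {v x : Fin n} : x ∈ nb G v ↔ G.Adj v x := by
  simp [nb]

lemma mem_reg {n d : ℕ} {G : SimpleGraph (Fin n)} : G ∈ reg n d ↔ ∀ v, (nb G v).card = d := by
  simp [reg]

lemma cnt_le_reg {n d : ℕ} (P : SimpleGraph (Fin n) → Prop) : cnt n d P ≤ (reg n d).card := by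
  classical
  unfold cnt
  exact Finset.card_filter_le _ _

/-- the backward tuples -/
noncomputable def BB {n : ℕ} (u v : Fin n) (G : SimpleGraph (Fin n)) : Finset (Tup n) := by
  classical exact (nb G u \ nb G v).biUnion (fun k => (nb G v \ nb G u).biUnion (fun l =>
    (nb G k).image (fun x => (v, k, l, x))))

lemma mem_BB {n : ℕ} {u v k l x : Fin n} {G : SimpleGraph (Fin n)} (h1 : k ∈ nb G u) (h2 : k ∉ nb G v)
    (h3 : l ∈ nb G v) (h4 : l ∉ nb G u) (h5 : x ∈ nb G k) : (v, k, l, x) ∈ BB u v G := by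
  classical
  unfold BB
  simp only [Finset.mem_biUnion, Finset.mem_sdiff, Finset.mem_image]
  exact ⟨k, ⟨h1, h2⟩, l, ⟨h3, h4⟩, x, h5, rfl⟩

lemma card_sd {n d : ℕ} {G : SimpleGraph (Fin n)} (hG : G ∈ reg n d) (u v : Fin n) {t : ℕ}
    (h : codeg G u v = t) (S : Finset (Fin n)) (hS : ∀ x, x ∈ S ↔ x ∈ nb G u ∧ x ∉ nb G v) :
    S.card = d - t := by
  classical
  have h1 : S = nb G u \ nb G v := by
    ext x; rw [hS, Finset.mem_sdiff]
  have h2 := Finset.card_sdiff_add_card_inter (nb G u) (nb G v)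
  have h3 : (nb G u ∩ nb G v).card = t := by
    rw [← h]; unfold codeg; congr
  rw [mem_reg.1 hG u, h3] at h2
  rw [h1]
  omega

lemma card_BB {n d : ℕ} {G : SimpleGraph (Fin n)} (hG : G ∈ reg n d) (u v : Fin n) {t : ℕ}
    (h : codeg G u v = t) : (BB u v G).card ≤ (d - t) * ((d - t) * d) := by
  classical
  have h' : codeg G v u = t := by
    rw [← h]; unfold codeg; congr 1; exact Finset.inter_comm _ _
  have e1 : (nb G u \ nb G v).card = d - t :=
    card_sd hG u v h _ (fun x => Finset.mem_sdiff)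
  have e2 : (nb G v \ nb G u).card = d - t :=
    card_sd hG v u h' _ (fun x => Finset.mem_sdiff)
  unfold BB
  refine (Finset.card_biUnion_le_card_mul _ _ ((d - t) * d) fun k _ => ?_).trans (by rw [e1])
  refine (Finset.card_biUnion_le_card_mul _ _ d fun l _ => ?_).trans (by rw [e2])
  exact Finset.card_image_le.trans (by rw [mem_reg.1 hG k])

lemma step {n d t : ℕ} (hSW : S_SW) {G : SimpleGraph (Fin n)} (hG : G ∈ reg n d) {u v : Fin n}
    (huv : u ≠ v) (hP : codeg G u v = t + 1) (τ : Tup n) (hτ : τ ∈ RT G u v) :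
    sw τ G ∈ reg n d ∧ codeg (sw τ G) u v = t ∧ τ ∈ BB u v (sw τ G) := by
  classical
  obtain ⟨a, k, l, x⟩ := τ
  unfold RT at hτ
  simp only [Finset.mem_filter, Finset.mem_univ, true_and] at hτ
  obtain ⟨rfl, h1, h2, h3, h4, h5, h6, h7, h8, h9⟩ := hτ
  have hval : Val G (a, k, l, x) := ⟨h2, h7, h4, Ne.symm h6, h8, h9⟩
  obtain ⟨-, hv, hk, -, -, hz, hreg⟩ := hSW n G a k l x hval
  have huk : u ≠ k := G.ne_of_adj h1
  have hux : u ≠ x := by
    rintro rfl
    exact h3 h7.symm
  have hu := hz u huv huk (Ne.symm h5) hux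
  have hkl : k ≠ l := by
    rintro rfl
    exact h3 h1
  refine ⟨hreg d hG, ?_, ?_⟩
  · have e : codeg (sw (a, k, l, x) G) u a =
        (nb (sw (a, k, l, x) G) u ∩ nb (sw (a, k, l, x) G) a).card := by
      unfold codeg; congr
    rw [e, hu, hv]
    have e2 : nb G u ∩ insert l ((nb G a).erase k) = (nb G u ∩ nb G a).erase k := by
      ext y
      simp only [Finset.mem_inter, Finset.mem_insert, Finset.mem_erase, mem_nb]
      constructor
      · rintro ⟨hy, rfl | ⟨hy1, hy2⟩⟩
        · exact absurd hy h3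
        · exact ⟨hy1, hy, hy2⟩
      · rintro ⟨hy1, hy, hy2⟩
        exact ⟨hy, Or.inr ⟨hy1, hy2⟩⟩
    have e3 : (nb G u ∩ nb G a).card = t + 1 := by
      rw [← hP]; unfold codeg; congr
    rw [e2, Finset.card_erase_of_mem (Finset.mem_inter.2 ⟨mem_nb.2 h1, mem_nb.2 h2⟩), e3]
    rfl
  · refine mem_BB ?_ ?_ ?_ ?_ ?_
    · rw [hu]; exact mem_nb.2 h1
    · rw [hv]
      simp [hkl]
    · rw [hv]; simp
    · rw [hu, mem_nb]; exact h3
    · rw [hk]; simp

end OB

open OB in
theorem t_ONE (hSW : S_SW) (hDC : S_DC) (hR : S_R) : S_ONE := by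
  intro n d t u v hn hd huv ht
  have key := hDC n d (fun G => codeg G u v = t + 1) (fun G => codeg G u v = t)
    (fun G => RT G u v) (fun G => BB u v G) ((3 * d ^ 3 + 15) / 16) ((d - t) * ((d - t) * d))
    (fun G hG hP τ hτ => step hSW hG huv hP τ hτ)
    (fun G hG hP => by
      have := hR n d t G u v hn hd hG huv hP ht
      omega)
    (fun G hG hQ => card_BB hG u v hQ)
  set P := cnt n d (fun G => codeg G u v = t + 1) with hPd
  set Q := cnt n d (fun G => codeg G u v = t) with hQd
  set f := (3 * d ^ 3 + 15) / 16 with hf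
  have h1 : 3 * d ^ 3 ≤ 16 * f := by omega
  have h2 : 8 * (d - t) ≤ d := by omega
  have h3 : 64 * ((d - t) * ((d - t) * d)) ≤ d ^ 3 := by
    calc 64 * ((d - t) * ((d - t) * d)) = (8 * (d - t)) * (8 * (d - t)) * d := by ring
      _ ≤ d * d * d := by gcongr
      _ = d ^ 3 := by ring
  have h4 : d ^ 3 * (12 * P) ≤ d ^ 3 * Q := by
    calc d ^ 3 * (12 * P) = 4 * ((3 * d ^ 3) * P) := by ring
      _ ≤ 4 * ((16 * f) * P) := by gcongr
      _ = 64 * (f * P) := by ring
      _ ≤ 64 * ((d - t) * ((d - t) * d) * Q) := by gcongr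
      _ = 64 * ((d - t) * ((d - t) * d)) * Q := by ring
      _ ≤ d ^ 3 * Q := by gcongr
  have h5 : 12 * P ≤ Q := Nat.le_of_mul_le_mul_left h4 (by positivity)
  omega

open OB in
theorem t_BAD (h : S_ONE) : S_BAD := by
  classical
  intro n d hn hd
  have hind : ∀ u v : Fin n, u ≠ v → ∀ i : ℕ,
      cnt n d (fun G => codeg G u v = (7 * d + 7) / 8 + i) * 2 ^ i ≤ (reg n d).card := by
    intro u v huv i
    induction i with
    | zero => simpa using cnt_le_reg _
    | succ i ih =>
      have h1 := h n d ((7 * d + 7) / 8 + i) u v hn hd huv (by omega)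
      calc cnt n d (fun G => codeg G u v = (7 * d + 7) / 8 + (i + 1)) * 2 ^ (i + 1)
          = (2 * cnt n d (fun G => codeg G u v = (7 * d + 7) / 8 + i + 1)) * 2 ^ i := by
            rw [pow_succ, Nat.add_assoc]; ring
        _ ≤ cnt n d (fun G => codeg G u v = (7 * d + 7) / 8 + i) * 2 ^ i := by gcongr
        _ ≤ _ := ih
  have hone : ∀ u v : Fin n, u ≠ v → ∀ t : ℕ, 15 * d ≤ 16 * t →
      cnt n d (fun G => codeg G u v = t) * 2 ^ (d / 16) ≤ (reg n d).card := by
    intro u v huv t ht
    have h1 : t = (7 * d + 7) / 8 + (t - (7 * d + 7) / 8) := by omega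
    have h2 := hind u v huv (t - (7 * d + 7) / 8)
    rw [← h1] at h2
    refine le_trans (Nat.mul_le_mul_left _ (Nat.pow_le_pow_right (by norm_num) ?_)) h2
    omega
  have hsub : (reg n d).filter (fun G => ¬ Good d G) ⊆
      (univ : Finset (Fin n)).biUnion (fun u => (univ : Finset (Fin n)).biUnion (fun v =>
        ((range (d + 1)).filter (fun t => u ≠ v ∧ 15 * d ≤ 16 * t)).biUnion (fun t =>
          (reg n d).filter (fun G => codeg G u v = t)))) := by
    intro G hG
    rw [Finset.mem_filter] at hG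
    obtain ⟨hG1, hG2⟩ := hG
    unfold Good at hG2
    push Not at hG2
    obtain ⟨u, v, huv, hc⟩ := hG2
    simp only [Finset.mem_biUnion, Finset.mem_univ, true_and, Finset.mem_filter, Finset.mem_range]
    refine ⟨u, v, codeg G u v, ⟨?_, huv, hc⟩, hG1, rfl⟩
    have : codeg G u v ≤ (nb G u).card := by
      unfold codeg
      exact Finset.card_le_card Finset.inter_subset_left
    rw [mem_reg.1 hG1 u] at this
    omega
  have hcnt : cnt n d (fun G => ¬ Good d G) =
      ((reg n d).filter (fun G => ¬ Good d G)).card := by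
    unfold cnt; congr
  have hdn : d + 1 ≤ n := by omega
  rw [hcnt]
  have hA : ∀ u v : Fin n,
      ((((range (d + 1)).filter (fun t => u ≠ v ∧ 15 * d ≤ 16 * t)).biUnion (fun t =>
          (reg n d).filter (fun G => codeg G u v = t))).card) * 2 ^ (d / 16) ≤
        n * (reg n d).card := by
    intro u v
    calc _ ≤ (∑ t ∈ (range (d + 1)).filter (fun t => u ≠ v ∧ 15 * d ≤ 16 * t),
          ((reg n d).filter (fun G => codeg G u v = t)).card) * 2 ^ (d / 16) :=
          Nat.mul_le_mul_right _ Finset.card_biUnion_le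
      _ = ∑ t ∈ (range (d + 1)).filter (fun t => u ≠ v ∧ 15 * d ≤ 16 * t),
          ((reg n d).filter (fun G => codeg G u v = t)).card * 2 ^ (d / 16) := by
          rw [Finset.sum_mul]
      _ ≤ ∑ t ∈ (range (d + 1)).filter (fun t => u ≠ v ∧ 15 * d ≤ 16 * t), (reg n d).card := by
          refine Finset.sum_le_sum fun t ht => ?_
          rw [Finset.mem_filter] at ht
          have h1 := hone u v ht.2.1 t ht.2.2
          have h2 : cnt n d (fun G => codeg G u v = t) =
              ((reg n d).filter (fun G => codeg G u v = t)).card := by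
            unfold cnt; congr
          rw [h2] at h1
          exact h1
      _ ≤ ∑ t ∈ range (d + 1), (reg n d).card :=
          Finset.sum_le_sum_of_subset (Finset.filter_subset _ _)
      _ = (d + 1) * (reg n d).card := by simp
      _ ≤ n * (reg n d).card := by gcongr
  calc ((reg n d).filter (fun G => ¬ Good d G)).card * 2 ^ (d / 16)
      ≤ (∑ u : Fin n, ∑ v : Fin n,
        (((range (d + 1)).filter (fun t => u ≠ v ∧ 15 * d ≤ 16 * t)).biUnion (fun t =>
          (reg n d).filter (fun G => codeg G u v = t))).card) * 2 ^ (d / 16) := by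
        refine Nat.mul_le_mul_right _ ((Finset.card_le_card hsub).trans ?_)
        refine Finset.card_biUnion_le.trans (Finset.sum_le_sum fun u _ => ?_)
        exact Finset.card_biUnion_le
    _ = ∑ u : Fin n, ∑ v : Fin n,
        (((range (d + 1)).filter (fun t => u ≠ v ∧ 15 * d ≤ 16 * t)).biUnion (fun t =>
          (reg n d).filter (fun G => codeg G u v = t))).card * 2 ^ (d / 16) := by
        rw [Finset.sum_mul]
        refine Finset.sum_congr rfl fun u _ => ?_
        rw [Finset.sum_mul]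
    _ ≤ ∑ u : Fin n, ∑ v : Fin n, n * (reg n d).card :=
        Finset.sum_le_sum fun u _ => Finset.sum_le_sum fun v _ => hA u v
    _ = n ^ 3 * (reg n d).card := by
        simp only [Finset.sum_const, Finset.card_univ, Fintype.card_fin, smul_eq_mul]
        ring

end Pool.Agent.K1H35.SH
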